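import Pool.Agent.H62.Qe.Defs
import Pool.Agent.G3.F.FDefs

/-!
# G4 V Defs: the conjecture for quasi-projective varieties

`GGLCOpen`: (i), (ii), (iii), and (iv) for curves, for the quasi-projective variety `U = locVar P G` (the points of the closed subvariety of `ℙ^N` given by `P` at which one of the forms `G m` is not `0`).
`IsHyperbolic`: the conclusion of the main theorem.  The case `G = {1}` of `quasiProjective` are the projective varieties.
-/

set_option autoImplicit false

open Topology Filter MvPolynomial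
open Pool.Agent.H17 (PN VanishesAt ZariskiClosedIn HolomorphicInto puncturedDisc)
open Pool.Agent.H62.FC (Homog)
open Pool.Agent.H62.SA (locVar OnBd)
open Pool.Agent.H62.Qe (IsEtaleOver)
open Pool.Agent.H17LG.Variety (FunField IsLogGeneralType)
open Pool.Agent.H17EF (projVar)
open Pool.Agent.H22.TB (GGLC)
open Pool.Agent.TGF (Cn Over)
open Pool.Agent.G3F (MetricPositiveAt)

noncomputable section

namespace Pool.Agent.G4F

variable {N k : ℕ}

/-- Three of the properties of the conjecture for the quasi-projective variety `U = locVar P G`, with the exceptional set `Ξ`: log general type, pseudo Picard hyperbolic, pseudo Brody hyperbolic; and every closed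
subvariety of `U` of dimension one which is not contained in `Ξ` is of log general type. -/
structure GGLCOpen (P : Ideal (MvPolynomial (Fin (N + 1)) ℂ)) [P.IsPrime] {s : ℕ} (G : Fin s → MvPolynomial (Fin (N + 1)) ℂ) (Ξ : Set (PN N)) : Prop where
  closed : ZariskiClosedIn (locVar P G) Ξ
  proper : Ξ ≠ locVar P G
  logGeneralType : ∀ w, 1 ≤ w → (∃ z : Fin w → FunField P, IsTranscendenceBasis ℂ z) → IsLogGeneralType (OnBd P G (k := w))
  picard : ∀ f : ℂ → PN N, HolomorphicInto f puncturedDisc → (∀ z ∈ puncturedDisc, f z ∈ locVar P G) → (∃ z ∈ puncturedDisc, f z ∉ Ξ) →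
    ∃ g : ℂ → PN N, HolomorphicInto g (Metric.ball 0 1) ∧ ∀ z ∈ puncturedDisc, g z = f z
  brody : ∀ f : ℂ → PN N, HolomorphicInto f Set.univ → (∀ z, f z ∈ locVar P G) → (∃ z w, f z ≠ f w) → ∀ z, f z ∈ Ξ
  strongly : ∀ (Q : Ideal (MvPolynomial (Fin (N + 1)) ℂ)) [Q.IsPrime], Homog Q → P ≤ Q → ¬ locVar Q G ⊆ Ξ →
    (∃ z : Fin 1 → FunField Q, IsTranscendenceBasis ℂ z) → IsLogGeneralType (OnBd Q G (k := 1))

/-- The conclusion, for the variety `X` of dimension `k + 2` given by `P`: `X` is hyperbolic modulo the hypersurface `Q = 0`, and the conjecture (with (iv) for curves) holds for the quasi-projective varieties which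
virtually dominate `X`. -/
structure IsHyperbolic (P : Ideal (MvPolynomial (Fin (N + 1)) ℂ)) [P.IsPrime] (Λ : AddSubgroup (Cn (k + 1))) (u : PN N → Cn (k + 1) ⧸ Λ)
    (D : Set (Cn (k + 1))) (Q : MvPolynomial (Fin (N + 1)) ℂ) : Prop where
  /-- the form `Q` is not `0` on `X` -/
  form : (∃ e, Q.IsHomogeneous e) ∧ Q ∉ P
  /-- it is `0` on the fibres over `D` -/
  singular : ∀ x ∈ projVar P, (∃ y ∈ D, u x = (y : Cn (k + 1) ⧸ Λ)) → VanishesAt Q x
  /-- there are finitely many holomorphic maps to `X` over the complement of `D` such that every entire curve over an affine line is one of them -/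
  lines : ∃ S : Set (Cn (k + 1) → PN N), S.Finite ∧ (∀ Φ ∈ S, ∀ y ∉ D, ∃ φ : Cn (k + 1) → Cn (N + 1), AnalyticAt ℂ φ y ∧
      ∀ᶠ z in 𝓝 y, Over (projVar P) Λ u z (φ z) ∧ ∃ h : φ z ≠ 0, Φ z = Projectivization.mk ℂ (φ z) h) ∧
    ∀ f : ℂ → PN N, HolomorphicInto f Set.univ → (∀ z, f z ∈ projVar P) → ∀ a b : Cn (k + 1), a ≠ 0 →
      (∀ z, u (f z) = ((z • a + b : Cn (k + 1)) : Cn (k + 1) ⧸ Λ)) → ∃ Φ ∈ S, ∀ z : ℂ, z • a + b ∉ D → f z = Φ (z • a + b)
  /-- it is `0` on all nonconstant entire curves -/
  brody : ∀ f : ℂ → PN N, HolomorphicInto f Set.univ → (∀ z, f z ∈ projVar P) → (∃ z w, f z ≠ f w) → ∀ z, VanishesAt Q (f z)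
  /-- every holomorphic map from the punctured disc to `X` which is not a map into `{Q = 0}` extends -/
  picard : ∀ f : ℂ → PN N, HolomorphicInto f puncturedDisc → (∀ z ∈ puncturedDisc, f z ∈ projVar P) → (∃ z ∈ puncturedDisc, ¬ VanishesAt Q (f z)) →
    ∃ g : ℂ → PN N, HolomorphicInto g (Metric.ball 0 1) ∧ ∀ z ∈ puncturedDisc, g z = f z
  /-- the Kobayashi-Royden metric is bounded below near every point of `X \ {Q = 0}` -/
  kobayashi : ∀ x ∈ projVar P, ¬ VanishesAt Q x → MetricPositiveAt (projVar P) x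
  /-- if `X` is of general type then it has the properties of the conjecture with the exceptional set `{Q = 0}` -/
  ggl : IsLogGeneralType (K := FunField P) (k := k + 2) (fun _ => False) → GGLC P {x | x ∈ projVar P ∧ VanishesAt Q x}
  /-- if `X` is of general type, then every quasi-projective variety `Y = locVar R G` of log general type, of the same dimension, with a finite étale covering `Y' = locVar P' G'` (given by a regular map `q` of the
  closures with `q⁻¹ (Y) = Y'`) and a dominant rational map from `Y'` to `X` has the properties of the conjecture -/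
  quasiProjective : IsLogGeneralType (K := FunField P) (k := k + 2) (fun _ => False) →
    ∀ (M L s s' : ℕ) (P' : Ideal (MvPolynomial (Fin (M + 1)) ℂ)) [P'.IsPrime] (R : Ideal (MvPolynomial (Fin (L + 1)) ℂ)) [R.IsPrime]
      (G : Fin s → MvPolynomial (Fin (L + 1)) ℂ) (G' : Fin s' → MvPolynomial (Fin (M + 1)) ℂ) (q : PN M → PN L),
    Homog P' → Homog R → (∀ i, ∃ e, (G i).IsHomogeneous e) → (∀ i, ∃ e, (G' i).IsHomogeneous e) → (∃ i, G i ∉ R) →
    (∃ z : Fin (k + 2) → FunField P', IsTranscendenceBasis ℂ z) → (∃ z : Fin (k + 2) → FunField R, IsTranscendenceBasis ℂ z) →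
    Nonempty (FunField P →ₐ[ℂ] FunField P') → IsEtaleOver R P' G G' q → IsLogGeneralType (OnBd R G (k := k + 2)) → ∃ Ξ : Set (PN L), GGLCOpen R G Ξ

end Pool.Agent.G4F
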