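import Pool.Agent.H23.GU.Down
import Pool.Agent.G4.V.Defs

/-!
# G4 V Down: quasi-projective varieties which virtually dominate `X`

`GGLCOpen.of_gglc`: open subsets of projective varieties with the properties `GGLC`.  `GGLCOpen.down`: the properties descend along finite étale coverings `U' → U` of quasi-projective varieties.
-/

set_option autoImplicit false

open Topology Filter MvPolynomial

noncomputable section

namespace Pool.Agent.G4F

open Pool.Agent.H17 (PN VanishesAt HolomorphicInto puncturedDisc ZariskiClosedIn)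
open Pool.Agent.H17LG.Variety (FunField IsLogGeneralType)
open Pool.Agent.H62.FC (Homog)
open Pool.Agent.H62.SA (locVar OnBd)
open Pool.Agent.H62.Qe (IsReg IsEtaleOver lift_entire lift_punctured extend_of_lift)
open Pool.Agent.H17EF (projVar)
open Pool.Agent.H22.TB (GGLC eq_of_basis)
open Pool.Agent.H7.Bir (mem_of_open logGT_of_gt)

variable {N M L s s' : ℕ}

/-- a point at which a form is not zero -/
theorem locVar_nonempty {P : Ideal (MvPolynomial (Fin (N + 1)) ℂ)} [P.IsPrime] (hP : Homog P) {G : Fin s → MvPolynomial (Fin (N + 1)) ℂ}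
    (hG : ∀ m, ∃ n, (G m).IsHomogeneous n) (hne : ∃ m, G m ∉ P) (hX : ∃ i, (X i : MvPolynomial (Fin (N + 1)) ℂ) ∉ P) : (locVar P G).Nonempty := by
  obtain ⟨m, hm⟩ := hne
  obtain ⟨n, hn⟩ := hG m
  obtain ⟨x, hx, hxG⟩ := Pool.Agent.H17EF.exists_point hP hX hm hn
  exact ⟨x, hx, m, hxG⟩

/-- closed subvarieties of dimension one which are not contained in the exceptional set are of log general type -/
theorem strongly_open {P : Ideal (MvPolynomial (Fin (N + 1)) ℂ)} {G : Fin s → MvPolynomial (Fin (N + 1)) ℂ} (hG : ∀ m, ∃ n, (G m).IsHomogeneous n)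
    {Ξ : Set (PN N)} (hΞ : ZariskiClosedIn (locVar P G) Ξ)
    (hbr : ∀ f : ℂ → PN N, HolomorphicInto f Set.univ → (∀ z, f z ∈ locVar P G) → (∃ z w, f z ≠ f w) → ∀ z, f z ∈ Ξ)
    (Q : Ideal (MvPolynomial (Fin (N + 1)) ℂ)) [Q.IsPrime] (hQ : Homog Q) (hPQ : P ≤ Q) (hQΞ : ¬ locVar Q G ⊆ Ξ)
    (hz' : ∃ z : Fin 1 → FunField Q, IsTranscendenceBasis ℂ z) : IsLogGeneralType (OnBd Q G (k := 1)) := by
  have hsub : locVar Q G ⊆ locVar P G := fun x hx => ⟨fun R hR n hn => hx.1 R (hPQ hR) n hn, hx.2⟩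
  have hX : ∃ i, (X i : MvPolynomial (Fin (N + 1)) ℂ) ∉ Q := by
    obtain ⟨x, hx, _⟩ := Set.not_subset.1 hQΞ
    exact Pool.Agent.H17EF.exists_coord (x := x) hx.1
  by_contra hl
  obtain ⟨f, hf, hfQ, hne⟩ := Pool.Agent.H13.CV.exists_entire_of_not_lgtL Q hX hz' hG hl
  have hΞf : ∀ z, f z ∈ Ξ := hbr f hf (fun z => hsub (hfQ z)) hne
  obtain ⟨S, hS, hSΞ⟩ := hΞ
  apply hQΞ
  intro x hx
  rw [hSΞ]
  refine ⟨hsub hx, fun R hR => ?_⟩
  obtain ⟨n, hn⟩ := hS R hR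
  have hRf : ∀ z, VanishesAt R (f z) := by
    intro z
    have h3 := hΞf z
    rw [hSΞ] at h3
    exact h3.2 R hR
  exact hx.1 R (Pool.Agent.H13.CV.form_of_curve0 Q hQ hz' hf (fun z => (hfQ z).1) hne hn hRf) n hn

/-- **The properties hold for all nonempty Zariski open subsets.** -/
theorem GGLCOpen.of_gglc {P : Ideal (MvPolynomial (Fin (N + 1)) ℂ)} [P.IsPrime] (hP : Homog P) {G : Fin s → MvPolynomial (Fin (N + 1)) ℂ}
    (hG : ∀ m, ∃ n, (G m).IsHomogeneous n) (hne : (locVar P G).Nonempty) {Ξ : Set (PN N)} (h : GGLC P Ξ) : GGLCOpen P G (Ξ ∩ locVar P G) := by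
  obtain ⟨S, hS, hΞ⟩ := h.closed
  have hcl : ZariskiClosedIn (locVar P G) (Ξ ∩ locVar P G) := by
    refine ⟨S, hS, ?_⟩
    ext x
    rw [hΞ]
    exact ⟨fun hx => ⟨hx.2, hx.1.2⟩, fun hx => ⟨⟨hx.1.1, hx.2⟩, hx.1⟩⟩
  have hbr : ∀ f : ℂ → PN N, HolomorphicInto f Set.univ → (∀ z, f z ∈ locVar P G) → (∃ z w, f z ≠ f w) → ∀ z, f z ∈ Ξ ∩ locVar P G :=
    fun f hf hfU hfn z => ⟨h.brody f hf (fun z => (hfU z).1) hfn z, hfU z⟩
  refine ⟨hcl, ?_, ?_, ?_, hbr, ?_⟩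
  · intro heq
    apply h.proper
    refine Set.Subset.antisymm ?_ ?_
    · rw [hΞ]
      exact fun x hx => hx.1
    · intro x hx
      rw [hΞ]
      refine ⟨hx, fun R hR => ?_⟩
      obtain ⟨n, hn⟩ := hS R hR
      refine hx R (mem_of_open hP hG hne hn fun y hy => ?_) n hn
      have h1 : y ∈ Ξ := by
        rw [← heq] at hy
        exact hy.1
      rw [hΞ] at h1
      exact h1.2 R hR
  · exact fun w hw hz => logGT_of_gt (h.generalType w hw hz) _
  · intro f hf hfU hfΞ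
    refine h.picard f hf (fun z hz => (hfU z hz).1) ?_
    obtain ⟨z, hz, hzΞ⟩ := hfΞ
    exact ⟨z, hz, fun h1 => hzΞ ⟨h1, hfU z hz⟩⟩
  · exact fun Q _ hQ hPQ hQΞ hz' => strongly_open hG hcl hbr Q hQ hPQ hQΞ hz'

/-- **Finite étale coverings.** -/
theorem GGLCOpen.down {P : Ideal (MvPolynomial (Fin (N + 1)) ℂ)} [P.IsPrime] {P' : Ideal (MvPolynomial (Fin (M + 1)) ℂ)} [P'.IsPrime] (hP : Homog P) (hP' : Homog P')
    {G : Fin s → MvPolynomial (Fin (N + 1)) ℂ} {G' : Fin s' → MvPolynomial (Fin (M + 1)) ℂ} (hG : ∀ m, ∃ n, (G m).IsHomogeneous n)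
    {k : ℕ} (hz : ∃ z : Fin (k + 1) → FunField P, IsTranscendenceBasis ℂ z) (hz' : ∃ z' : Fin (k + 1) → FunField P', IsTranscendenceBasis ℂ z')
    {p : PN M → PN N} (hp : IsEtaleOver P P' G G' p) (hne : (locVar P G).Nonempty)
    (hgt : IsLogGeneralType (OnBd P G (k := k + 1))) {Ξ' : Set (PN M)} (h : GGLCOpen P' G' Ξ') : ∃ Ξ : Set (PN N), GGLCOpen P G Ξ := by
  -- a form which vanishes on the exceptional set
  obtain ⟨S, hS, hΞS⟩ := h.closed
  obtain ⟨y₀, hy₀, R', hR'S, hR'y₀⟩ : ∃ y ∈ locVar P' G', ∃ R ∈ S, ¬ VanishesAt R y := by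
    by_contra hcon
    push Not at hcon
    apply h.proper
    rw [hΞS]
    ext y
    exact ⟨fun hy => hy.1, fun hy => ⟨hy, fun R hR => hcon y hy R hR⟩⟩
  obtain ⟨n', hn'⟩ := hS R' hR'S
  have hR'P : R' ∉ P' := fun h1 => hR'y₀ (hy₀.1 R' h1 n' hn')
  have hR'v : ∀ y ∈ Ξ', VanishesAt R' y := by
    intro y hy
    rw [hΞS] at hy
    exact hy.2 R' hR'S
  have hcoord := Pool.Agent.H17EF.exists_coord (hp.reg.maps y₀ hy₀.1)
  obtain ⟨T, n, hT, hTP, hTv⟩ := Pool.Agent.H23.GU.exists_image_form hP hP' hcoord hz hz' hp.reg hn' hR'P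
  -- the exceptional set
  refine ⟨{x | x ∈ locVar P G ∧ VanishesAt T x}, ?_⟩
  have hclosed : ZariskiClosedIn (locVar P G) {x | x ∈ locVar P G ∧ VanishesAt T x} := by
    refine ⟨{T}, fun R hR => ?_, ?_⟩
    · rw [Set.mem_singleton_iff.1 hR]
      exact ⟨n, hT⟩
    · ext x
      constructor
      · rintro ⟨h1, h2⟩
        refine ⟨h1, fun R hR => ?_⟩
        rw [Set.mem_singleton_iff.1 hR]
        exact h2
      · rintro ⟨h1, h2⟩
        exact ⟨h1, h2 T rfl⟩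
  have hbrody : ∀ f : ℂ → PN N, HolomorphicInto f Set.univ → (∀ z, f z ∈ locVar P G) → (∃ z w, f z ≠ f w) →
      ∀ z, f z ∈ {x | x ∈ locVar P G ∧ VanishesAt T x} := by
    intro f hf hfX hfn z
    obtain ⟨g, hg, hgU, hgf⟩ := lift_entire hP' hp hf hfX
    have hgn : ∃ z w, g z ≠ g w := by
      obtain ⟨a, b, hab⟩ := hfn
      refine ⟨a, b, fun h1 => hab ?_⟩
      rw [← hgf a, ← hgf b, h1]
    refine ⟨hfX z, ?_⟩
    rw [← hgf z]
    exact hTv _ (hgU z).1 (hR'v _ (h.brody g hg hgU hgn z))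
  refine ⟨hclosed, ?_, ?_, ?_, hbrody, ?_⟩
  · intro heq
    apply hTP
    refine mem_of_open hP hG hne hT fun x hx => ?_
    rw [← heq] at hx
    exact hx.2
  · rintro w _ ⟨z'', hz''⟩
    obtain ⟨z, hz⟩ := hz
    obtain rfl := eq_of_basis hz hz''
    exact hgt
  · intro f hf hfX hfΞ
    obtain ⟨k, g, hk, hg, hgU, hgf⟩ := lift_punctured hP' hp hf hfX
    have hgΞ : ∃ z ∈ puncturedDisc, g z ∉ Ξ' := by
      by_contra hcon
      push Not at hcon
      obtain ⟨w, hw, hwΞ⟩ := hfΞ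
      apply hwΞ
      refine ⟨hfX w hw, ?_⟩
      obtain ⟨z, hz⟩ := IsAlgClosed.exists_pow_nat_eq w (by omega : 0 < k)
      have hzD : z ∈ puncturedDisc := by
        refine ⟨?_, ?_⟩
        · rw [mem_ball_zero_iff]
          by_contra h1
          push Not at h1
          have h2 : 1 ≤ ‖z‖ ^ k := one_le_pow₀ h1
          rw [← norm_pow, hz] at h2
          have h3 : ‖w‖ < 1 := by
            rw [← mem_ball_zero_iff]
            exact hw.1
          linarith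
        · rintro rfl
          apply hw.2
          rw [Set.mem_singleton_iff, ← hz, zero_pow (by omega)]
      rw [← hz, ← hgf z hzD]
      exact hTv _ (hgU z hzD).1 (hR'v _ (hcon z hzD))
    obtain ⟨ĝ, hĝ, hgg⟩ := h.picard g hg hgU hgΞ
    exact extend_of_lift hp.reg hf hk (fun z hz => (hgU z hz).1) hgf hĝ hgg
  · exact fun Q _ hQ hPQ hsub hzw => strongly_open hG hclosed hbrody Q hQ hPQ hsub hzw

/-- **Quasi-projective varieties which virtually dominate `X`.** -/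
theorem gglo_virtual {P : Ideal (MvPolynomial (Fin (N + 1)) ℂ)} [P.IsPrime] {k : ℕ} (hz : ∃ z : Fin (k + 1) → FunField P, IsTranscendenceBasis ℂ z)
    {Ξ : Set (PN N)} (hΞ : GGLC P Ξ) {P' : Ideal (MvPolynomial (Fin (M + 1)) ℂ)} [P'.IsPrime] (hP' : Homog P')
    (hz' : ∃ z : Fin (k + 1) → FunField P', IsTranscendenceBasis ℂ z) (e : FunField P →ₐ[ℂ] FunField P') {R : Ideal (MvPolynomial (Fin (L + 1)) ℂ)} [R.IsPrime] (hR : Homog R)
    (hw : ∃ z : Fin (k + 1) → FunField R, IsTranscendenceBasis ℂ z) {G : Fin s → MvPolynomial (Fin (L + 1)) ℂ} {G' : Fin s' → MvPolynomial (Fin (M + 1)) ℂ}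
    (hG : ∀ m, ∃ n, (G m).IsHomogeneous n) (hG' : ∀ m, ∃ n, (G' m).IsHomogeneous n) (hne : ∃ m, G m ∉ R)
    (hgt : IsLogGeneralType (OnBd R G (k := k + 1))) {q : PN M → PN L} (hq : IsEtaleOver R P' G G' q) : ∃ Ξ' : Set (PN L), GGLCOpen R G Ξ' := by
  obtain ⟨z, hz⟩ := hz
  obtain ⟨z', hz'⟩ := hz'
  obtain ⟨Ξ₁, h₁⟩ := Pool.Agent.H23.GU.gglc_up hP' hz hz' e hΞ
  have hX : ∃ i, (X i : MvPolynomial (Fin (L + 1)) ℂ) ∉ R := Pool.Agent.H62.FC.exists_X_notMem (r := k + 1) (by omega) hw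
  have hU := locVar_nonempty hR hG hne hX
  have hU' : (locVar P' G').Nonempty := by
    obtain ⟨x, hx⟩ := hU
    obtain ⟨y, hy, hyx⟩ := hq.reg.surj x hx.1
    exact ⟨y, (hq.inv y hy).1 (by rw [hyx]; exact hx)⟩
  exact (GGLCOpen.of_gglc hP' hG' hU' h₁).down hR hP' hG hw ⟨z', hz'⟩ hq hU hgt

end Pool.Agent.G4F
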