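import Pool.Agent.G4.M.Main
import Pool.Agent.G4.V.Down

/-!
# G4 V Main: the final theorem, with the quasi-projective varieties which virtually dominate `X`
-/

set_option autoImplicit false

open Topology Filter MvPolynomial

namespace Pool.Agent.G4.V

open Pool.Agent.H17 (PN VanishesAt)
open Pool.Agent.H62.FC (Homog)
open Pool.Agent.H17LG.Variety (FunField IsLogGeneralType)
open Pool.Agent.H17EF (projVar)
open Pool.Agent.AD (IsHolomorphicTorusMap)
open Pool.Agent.TGF (Cn)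
open Pool.Agent.G3F (HasTopForms)
open Pool.Agent.G4F (IsSimple IsSingularLocus HasMetric HasJetForms IsHyperbolic gglo_virtual)

theorem main {N k : ℕ} (P : Ideal (MvPolynomial (Fin (N + 1)) ℂ)) [P.IsPrime] (hP : Homog P)
    (hdim : ∃ z : Fin (k + 2) → FunField P, IsTranscendenceBasis ℂ z) (hsmooth : Pool.Agent.AD.NC.IsSmooth P (k + 2))
    (Λ : AddSubgroup (Cn (k + 1))) [DiscreteTopology Λ] (hspan : Submodule.span ℝ (Λ : Set (Cn (k + 1))) = ⊤) (hsimple : IsSimple Λ)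
    (u : PN N → Cn (k + 1) ⧸ Λ) (hu : IsHolomorphicTorusMap (projVar P) Λ u) (D B : Set (Cn (k + 1))) (hD : IsSingularLocus (projVar P) Λ u D B)
    (hR : ∃ (e : ℕ) (R : MvPolynomial (Fin (N + 1)) ℂ), R.IsHomogeneous e ∧ R ∉ P ∧
      ∀ x ∈ projVar P, (∃ y ∈ D, u x = (y : Cn (k + 1) ⧸ Λ)) → VanishesAt R x)
    (hE : HasTopForms (projVar P) Λ u D) (hM : HasMetric (projVar P) Λ u D) (hJ : HasJetForms (projVar P) Λ u D) :
    ∃ Q : MvPolynomial (Fin (N + 1)) ℂ, IsHyperbolic P Λ u D Q := by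
  obtain ⟨Q, hQ⟩ := Pool.Agent.G4.main P hP hdim hsmooth Λ hspan hsimple u hu D B hD hR hE hM hJ
  exact ⟨Q, hQ.form, hQ.singular, hQ.lines, hQ.brody, hQ.picard, hQ.kobayashi, hQ.ggl, fun hgt M L s s' P' _ R _ G G' q hP' hR' hG hG' hne hz' hw ⟨e⟩ hq hlg => gglo_virtual (k := k + 1) hdim (hQ.ggl hgt) hP' hz' e hR' hw hG hG' hne hlg hq⟩

end Pool.Agent.G4.V
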